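import Pool.Agent.V11174.RES.Smart

set_option autoImplicit false

namespace Pool.Agent.Results.MP_233400_co.AllTrees

open V11174.RES Finset

/-- transfer from embeddings into graphs of minimum degree larger than `D` -/
theorem bound_of {n : ℕ} {W : Type} (T : SimpleGraph W) (D : ℕ)
    (h : ∀ H : SimpleGraph (Fin n → Bool), H ≤ cube n → ∀ φ, IsProper H φ →
      ∀ U : Finset (Fin n → Bool), U.Nonempty →
      (∀ u ∈ U, ∃ N : Finset (Fin n → Bool), (∀ v ∈ N, v ∈ U ∧ H.Adj u v) ∧ D < N.card) →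
      ∃ f : W → (Fin n → Bool), IsRainbowCopy H φ T f) :
    ∀ m ∈ sizes (cube n) T, m ≤ D * 2 ^ n := by
  classical
  rintro m ⟨H, hH, ⟨φ, hφ, hno⟩, rfl⟩
  by_contra hcon
  push Not at hcon
  apply hno
  have hedge : H.edgeSet.ncard = H.edgeFinset.card := by
    rw [← SimpleGraph.coe_edgeFinset, Set.ncard_coe_finset]
  have hV : Fintype.card (Fin n → Bool) = 2 ^ n := by simp
  rw [hedge, ← hV] at hcon
  obtain ⟨U, hU, hdeg⟩ := dense_core H _ hcon
  exact h H hH φ hφ U hU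
    (fun u hu => ⟨U.filter (fun v => H.Adj u v), fun v hv => Finset.mem_filter.1 hv, hdeg u hu⟩)

theorem exStar_le {n : ℕ} {W : Type} (T : SimpleGraph W) (M : ℕ)
    (h : ∀ m ∈ sizes (cube n) T, m ≤ M) : exStar (cube n) T ≤ M := by
  rcases Set.eq_empty_or_nonempty (sizes (cube n) T) with h0 | h0
  · rw [exStar, h0]
    simp
  · exact csSup_le h0 h

/-- embedding under a minimum degree condition on a vertex set -/
theorem smart_apply {n : ℕ} {W : Type} [Fintype W] [DecidableEq W] (T : SimpleGraph W)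
    (hT : T.IsTree) (k s : ℕ) (hW : Fintype.card W = k + 1) (hs : 1 ≤ s) (hks : k ≤ s ^ 3)
    (H : SimpleGraph (Fin n → Bool)) (hH : H ≤ cube n) (φ : Sym2 (Fin n → Bool) → ℕ)
    (hφ : IsProper H φ) (U : Finset (Fin n → Bool)) (hU : U.Nonempty)
    (hN : ∀ u ∈ U, ∃ N : Finset (Fin n → Bool), (∀ v ∈ N, v ∈ U ∧ H.Adj u v) ∧
      k + 6 * s ^ 2 - 2 < N.card) :
    ∃ f : W → (Fin n → Bool), IsRainbowCopy H φ T f := by
  have hs2 : 1 ≤ s ^ 2 := Nat.one_le_pow _ _ hs
  have hdiv : 2 * s * k / (2 * s ^ 2) ≤ s ^ 2 := by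
    rw [Nat.div_le_iff_le_mul_add_pred (by positivity)]
    have h1 : 2 * s * k ≤ 2 * s * s ^ 3 := Nat.mul_le_mul_left _ hks
    have h2 : 2 * s * s ^ 3 = s ^ 2 * (2 * s ^ 2) := by ring
    nlinarith
  have hss : s ≤ s ^ 2 := by nlinarith
  rcases Nat.eq_zero_or_pos k with h0 | h0
  · subst h0
    obtain ⟨w, hw⟩ := Fintype.card_eq_one_iff.1 hW
    obtain ⟨y, -⟩ := hU
    refine ⟨fun _ => y, ?_, ?_, ?_⟩
    · intro a b _
      rw [hw a, hw b]
    · intro a b hab
      exact absurd ((hw a).trans (hw b).symm) hab.ne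
    · intro a b c d hab
      exact absurd ((hw a).trans (hw b).symm) hab.ne
  · obtain ⟨f, hf, -⟩ := smart_tree H hH φ hφ U hU (k + 6 * s ^ 2 - 2) k (2 * s ^ 2) (2 * s ^ 2) s
      (by
        have h1 : (s + 1) * (2 * s ^ 2) = 2 * s ^ 3 + 2 * s ^ 2 := by ring
        omega)
      (by omega) (by omega)
      (by omega)
      hN k T hT hW le_rfl
    exact ⟨f, hf⟩

/-- For every `n` and every tree `T` with `k` edges,
`ex*(Q_n, T) ≤ (k - 1 + ⌊2 (k - 2) / 3⌋) 2^n`, and, for every `s ≥ 1` with `s^3 ≥ k`,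
`ex*(Q_n, T) ≤ (k + 6 s^2 - 2) 2^n`, and every properly coloured `H ⊆ Q_n` of minimum degree at
least `k + 6 s^2 - 1` contains a rainbow copy of `T`. -/
theorem result (n k : ℕ) (W : Type) [Finite W] (T : SimpleGraph W)
    (hT : T.IsTree) (hW : Nat.card W = k + 1) :
    exStar (cube n) T ≤ (k - 1 + 2 * (k - 2) / 3) * 2 ^ n ∧
    ∀ s : ℕ, 1 ≤ s → k ≤ s ^ 3 → exStar (cube n) T ≤ (k + 6 * s ^ 2 - 2) * 2 ^ n ∧
      ∀ H : SimpleGraph (Fin n → Bool), H ≤ cube n → ∀ φ : Sym2 (Fin n → Bool) → ℕ,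
        IsProper H φ → (∀ v, k + 6 * s ^ 2 - 1 ≤ (H.neighborSet v).ncard) →
        ∃ f : W → (Fin n → Bool), IsRainbowCopy H φ T f := by
  classical
  have := Fintype.ofFinite W
  have hW' : Fintype.card W = k + 1 := by rw [← Nat.card_eq_fintype_card]; exact hW
  constructor
  · apply exStar_le
    apply bound_of
    intro H hH φ hφ U hU hN
    obtain ⟨f, hf, -⟩ := greedy_tree H hH φ hφ U hU (k - 1 + 2 * (k - 2) / 3) hN k T hT hW' le_rfl
    exact ⟨f, hf⟩
  · intro s hs hks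
    constructor
    · apply exStar_le
      apply bound_of
      intro H hH φ hφ U hU hN
      exact smart_apply T hT k s hW' hs hks H hH φ hφ U hU hN
    · intro H hH φ hφ hdeg
      apply smart_apply T hT k s hW' hs hks H hH φ hφ univ Finset.univ_nonempty
      intro u _
      refine ⟨H.neighborFinset u, fun v hv => ⟨Finset.mem_univ _, by simpa using hv⟩, ?_⟩
      have h1 := hdeg u
      have h2 : (H.neighborSet u).ncard = (H.neighborFinset u).card :=
        Set.ncard_eq_toFinset_card' _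
      have hs2 : 1 ≤ s ^ 2 := Nat.one_le_pow _ _ hs
      omega

end Pool.Agent.Results.MP_233400_co.AllTrees
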