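import Pool.Agent.V11174.RES.Cube

set_option autoImplicit false

namespace Pool.Agent.Results.MP_233400_co.DiameterThree

open V11174.RES

theorem star_dist (k : ℕ) (x y : Fin (k + 1)) :
    (SimpleGraph.starGraph (0 : Fin (k + 1))).dist x y ≤ 3 := by
  by_cases hxy : x = y
  · subst hxy
    simp
  · by_cases hx : x = 0
    · have h : (SimpleGraph.starGraph (0 : Fin (k + 1))).Adj x y := by
        rw [SimpleGraph.starGraph_adj]
        exact ⟨hxy, Or.inl hx⟩
      have := SimpleGraph.dist_le (SimpleGraph.Walk.cons h .nil)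
      simp at this
      omega
    · by_cases hy : y = 0
      · have h : (SimpleGraph.starGraph (0 : Fin (k + 1))).Adj x y := by
          rw [SimpleGraph.starGraph_adj]
          exact ⟨hxy, Or.inr hy⟩
        have := SimpleGraph.dist_le (SimpleGraph.Walk.cons h .nil)
        simp at this
        omega
      · have h1 : (SimpleGraph.starGraph (0 : Fin (k + 1))).Adj x 0 := by
          rw [SimpleGraph.starGraph_adj]
          exact ⟨hx, Or.inr rfl⟩
        have h2 : (SimpleGraph.starGraph (0 : Fin (k + 1))).Adj 0 y := by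
          rw [SimpleGraph.starGraph_adj]
          exact ⟨fun h => hy h.symm, Or.inl rfl⟩
        have := SimpleGraph.dist_le (SimpleGraph.Walk.cons h1 (.cons h2 .nil))
        simp at this
        omega

theorem greatest {W : Type} [Finite W] (T : SimpleGraph W) (hT : T.IsTree) (n k : ℕ)
    (hk : 1 ≤ k) (hW : Nat.card W = k + 1) (hd : ∀ x y, T.dist x y ≤ 3) :
    IsGreatest (sizes (cube n) T) (min (k - 1) n * 2 ^ (n - 1)) := by
  apply greatest_of T hT n k hk hW
  intro H hH φ hφ h
  exact rainbow_copy H φ hφ T hT k 3 hW hd (no_cycle_three hH φ)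
    (by rw [card_cube_vertices]; exact h)

/-- For all `n`, `k ≥ 1` and every tree `T` with `k` edges and diameter at most `3`,
`ex*(Q_n, T) = ex*(Q_n, K_{1,k})`, and both equal `min (k-1) n * 2^(n-1)`. -/
theorem result (n k : ℕ) (hk : 1 ≤ k) (W : Type) [Finite W] (T : SimpleGraph W)
    (hT : T.IsTree) (hW : Nat.card W = k + 1) (hd : ∀ x y, T.dist x y ≤ 3) :
    exStar (cube n) T = exStar (cube n) (SimpleGraph.starGraph (0 : Fin (k + 1))) ∧
      IsGreatest (sizes (cube n) T) (min (k - 1) n * 2 ^ (n - 1)) ∧
      IsGreatest (sizes (cube n) (SimpleGraph.starGraph (0 : Fin (k + 1))))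
        (min (k - 1) n * 2 ^ (n - 1)) := by
  have h1 := greatest T hT n k hk hW hd
  have h2 := greatest (SimpleGraph.starGraph (0 : Fin (k + 1)))
    (SimpleGraph.isTree_starGraph _) n k hk (by simp) (star_dist k)
  refine ⟨?_, h1, h2⟩
  rw [exStar, exStar, h1.csSup_eq, h2.csSup_eq]

end Pool.Agent.Results.MP_233400_co.DiameterThree
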