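import Pool.Agent.V11174.RES.Cube

set_option autoImplicit false

namespace Pool.Agent.Results.MP_233400_co.NoRainbowCycles

open V11174.RES Finset

/-- along a walk with distinct directions the differing coordinates are the directions used -/
theorem walk_dirs {n : ℕ} {H : SimpleGraph (Fin n → Bool)} (hH : H ≤ cube n)
    {u v : Fin n → Bool} (w : H.Walk u v)
    (hw : (w.edges.map (dirCol n)).Nodup) (i : Fin n) :
    u i ≠ v i ↔ i.val ∈ w.edges.map (dirCol n) := by
  induction w with
  | nil => simp
  | @cons a b c h w' ih =>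
    obtain ⟨i0, h1, h2⟩ := hH h
    rw [SimpleGraph.Walk.edges_cons, List.map_cons, List.nodup_cons, dirCol_eq h1 h2] at hw
    rw [SimpleGraph.Walk.edges_cons, List.map_cons, List.mem_cons, dirCol_eq h1 h2]
    have ih' := ih hw.2
    by_cases hi : i = i0
    · subst hi
      have h3 : b i = c i := by
        by_contra h
        exact hw.1 (ih'.1 h)
      rw [← h3]
      simp [h1]
    · rw [h2 i hi, ih']
      have : i.val ≠ i0.val := fun h => hi (Fin.ext h)
      simp [this]

theorem walk_hamming {n : ℕ} {H : SimpleGraph (Fin n → Bool)} (hH : H ≤ cube n)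
    {u v : Fin n → Bool} (w : H.Walk u v)
    (hw : (w.edges.map (dirCol n)).Nodup) : hammingDist u v = w.length := by
  classical
  have h1 : (univ.filter (fun i : Fin n => u i ≠ v i)).image (fun i => i.val) =
      (w.edges.map (dirCol n)).toFinset := by
    ext c
    rw [Finset.mem_image, List.mem_toFinset]
    constructor
    · rintro ⟨i, hi, rfl⟩
      rw [Finset.mem_filter] at hi
      exact (walk_dirs hH w hw i).1 hi.2
    · intro hc
      obtain ⟨e, he, hec⟩ := List.mem_map.1 hc
      have hadj := w.edges_subset_edgeSet he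
      obtain ⟨i, hi⟩ : ∃ i : Fin n, i.val = c := by
        induction e using Sym2.ind with
        | _ a b =>
          obtain ⟨i, g1, g2⟩ := hH hadj
          exact ⟨i, by rw [← hec, dirCol_eq g1 g2]⟩
      refine ⟨i, ?_, hi⟩
      rw [Finset.mem_filter]
      refine ⟨Finset.mem_univ _, ?_⟩
      rw [walk_dirs hH w hw i, hi]
      exact hc
  have h2 : (univ.filter (fun i : Fin n => u i ≠ v i)).card =
      ((univ.filter (fun i : Fin n => u i ≠ v i)).image (fun i => i.val)).card :=
    (Finset.card_image_of_injective _ Fin.val_injective).symm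
  show (univ.filter (fun i : Fin n => u i ≠ v i)).card = w.length
  rw [h2, h1, List.toFinset_card_of_nodup hw, List.length_map, SimpleGraph.Walk.length_edges]

theorem dir_no_cycle {n : ℕ} {H : SimpleGraph (Fin n → Bool)} (hH : H ≤ cube n) (D : ℕ) :
    ¬ HasRainbowCycle H (dirCol n) D := by
  rintro ⟨v, c, h1, -, h3⟩
  have h4 := walk_hamming hH c h3
  rw [hammingDist_self] at h4
  have h5 := h1.three_le_length
  omega

theorem dist_bdd {W : Type} [Finite W] (T : SimpleGraph W) : ∃ D, ∀ x y, T.dist x y ≤ D := by
  classical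
  have := Fintype.ofFinite W
  refine ⟨((univ : Finset (W × W)).sup fun p => T.dist p.1 p.2), fun x y => ?_⟩
  exact Finset.le_sup (f := fun p : W × W => T.dist p.1 p.2) (Finset.mem_univ (x, y))

/-- distances in an embedded copy whose edges have distinct directions -/
theorem iso_of_dir {n : ℕ} {W : Type} {H : SimpleGraph (Fin n → Bool)} (hH : H ≤ cube n)
    (T : SimpleGraph W) (hT : T.IsTree) (f : W → (Fin n → Bool))
    (hf : IsRainbowCopy H (dirCol n) T f) (x y : W) :
    hammingDist (f x) (f y) = T.dist x y := by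
  obtain ⟨-, h1, hr⟩ := hf
  obtain ⟨p, hp⟩ := hT.connected.exists_walk_length_eq_dist x y
  have hpath := p.isPath_of_length_eq_dist hp
  let F : T →g H := ⟨f, fun {a b} h => h1 a b h⟩
  have hedges : (p.map F).edges = p.edges.map (Sym2.map f) := by
    rw [SimpleGraph.Walk.edges_map]
    rfl
  have hinj : ∀ e ∈ p.edges, ∀ e' ∈ p.edges,
      dirCol n (Sym2.map f e) = dirCol n (Sym2.map f e') → e = e' := by
    intro e he e' he' h
    have h1 := p.edges_subset_edgeSet he
    have h2 := p.edges_subset_edgeSet he'
    induction e using Sym2.ind with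
    | _ a b =>
      induction e' using Sym2.ind with
      | _ c d =>
        exact hr a b c d h1 h2 h
  have hnodup : ((p.map F).edges.map (dirCol n)).Nodup := by
    rw [hedges, List.map_map]
    exact List.Nodup.map_on (fun e he e' he' h => hinj e he e' he' h) hpath.isTrail.edges_nodup
  have := walk_hamming hH (p.map F) hnodup
  rw [SimpleGraph.Walk.length_map, hp] at this
  exact this

/-- Rainbow Erdős–Sós without short rainbow cycles; exact value in the cube; isometric copies. -/
theorem result :
    (∀ (V W : Type) [Finite V] [Finite W] (H : SimpleGraph V) (φ : Sym2 V → ℕ)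
      (T : SimpleGraph W) (k D : ℕ), IsProper H φ → T.IsTree → Nat.card W = k + 1 →
      (∀ x y, T.dist x y ≤ D) → ¬ HasRainbowCycle H φ D →
      (k - 1) * Nat.card V < 2 * H.edgeSet.ncard →
      ∃ f : W → V, IsRainbowCopy H φ T f) ∧
    (∀ (n k D : ℕ), 1 ≤ k → ∀ (W : Type) [Finite W] (T : SimpleGraph W), T.IsTree →
      Nat.card W = k + 1 → (∀ x y, T.dist x y ≤ D) →
      IsGreatest {m : ℕ | ∃ H : SimpleGraph (Fin n → Bool), H ≤ cube n ∧
        (∃ φ : Sym2 (Fin n → Bool) → ℕ, IsProper H φ ∧ ¬ HasRainbowCycle H φ D ∧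
          ¬ ∃ f : W → (Fin n → Bool), IsRainbowCopy H φ T f) ∧ H.edgeSet.ncard = m}
        (min (k - 1) n * 2 ^ (n - 1))) ∧
    (∀ (n k : ℕ) (W : Type) [Finite W] (T : SimpleGraph W), T.IsTree →
      Nat.card W = k + 1 → ∀ H : SimpleGraph (Fin n → Bool), H ≤ cube n →
      (k - 1) * 2 ^ n < 2 * H.edgeSet.ncard →
      ∃ f : W → (Fin n → Bool), (∀ a b, T.Adj a b → H.Adj (f a) (f b)) ∧
        (∀ x y, hammingDist (f x) (f y) = T.dist x y) ∧
        ∀ φ : Sym2 (Fin n → Bool) → ℕ,
          (∀ e ∈ H.edgeSet, ∀ e' ∈ H.edgeSet, φ e = φ e' → dirCol n e = dirCol n e') →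
          IsRainbowCopy H φ T f) := by
  refine ⟨?_, ?_, ?_⟩
  · intro V W _ _ H φ T k D hφ hT hW hD hc h
    exact rainbow_copy H φ hφ T hT k D hW hD hc h
  · intro n k D hk W _ T hT hW hD
    constructor
    · have h1 := lower T hT n k (min (k - 1) n) hW (by omega)
      have h2 := dirs_card n (min (k - 1) n) (min_le_right _ _)
      have h3 : (dirs n (min (k - 1) n)).edgeSet.ncard = min (k - 1) n * 2 ^ (n - 1) := by
        rcases Nat.eq_zero_or_pos n with h0 | h0
        · subst h0
          simp at h2 ⊢
          omega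
        · obtain ⟨m, rfl⟩ : ∃ m, n = m + 1 := ⟨n - 1, by omega⟩
          rw [pow_succ, ← mul_assoc] at h2
          rw [Nat.add_sub_cancel]
          omega
      refine ⟨dirs n (min (k - 1) n), dirs_le _ _,
        ⟨dirCol n, dirs_proper _ _, dir_no_cycle (dirs_le _ _) D, ?_⟩, h3⟩
      rintro ⟨f, -, hf2, hf3⟩
      classical
      have := Fintype.ofFinite W
      have hc := hT.card_edgeFinset
      rw [Nat.card_eq_fintype_card] at hW
      have hke : T.edgeFinset.card = k := by omega
      have hle : T.edgeFinset.card ≤ (Finset.range (min (k - 1) n)).card := by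
        apply Finset.card_le_card_of_injOn (fun e => dirCol n (Sym2.map f e))
        · intro e he
          have he' : e ∈ T.edgeFinset := he
          induction e using Sym2.ind with
          | _ a b =>
            rw [SimpleGraph.mem_edgeFinset, SimpleGraph.mem_edgeSet] at he'
            obtain ⟨i, g0, g1, g4⟩ := hf2 a b he'
            show dirCol n s(f a, f b) ∈ (Finset.range (min (k - 1) n) : Set ℕ)
            rw [dirCol_eq g1 g4]
            simpa using g0
        · intro e he e' he' h
          have g1 : e ∈ T.edgeFinset := he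
          have g2 : e' ∈ T.edgeFinset := he'
          induction e using Sym2.ind with
          | _ a b =>
            induction e' using Sym2.ind with
            | _ c d =>
              rw [SimpleGraph.mem_edgeFinset, SimpleGraph.mem_edgeSet] at g1 g2
              exact hf3 a b c d g1 g2 h
      rw [hke, Finset.card_range] at hle
      omega
    · rintro m ⟨H, hH, ⟨φ, hφ, hcyc, hno⟩, rfl⟩
      have h1 : ¬ (k - 1) * 2 ^ n < 2 * H.edgeSet.ncard := fun h =>
        hno (rainbow_copy H φ hφ T hT k D hW hD hcyc (by rw [card_cube_vertices]; exact h))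
      have h2 := cube_bound hH
      rcases Nat.eq_zero_or_pos n with h0 | h0
      · subst h0
        simp at h2 ⊢
        exact h2
      · obtain ⟨m, rfl⟩ : ∃ m, n = m + 1 := ⟨n - 1, by omega⟩
        rw [Nat.add_sub_cancel]
        rw [pow_succ, ← mul_assoc] at h1 h2
        rcases le_total (k - 1) (m + 1) with h3 | h3
        · rw [min_eq_left h3]; omega
        · rw [min_eq_right h3]; omega
  · intro n k W _ T hT hW H hH h
    obtain ⟨D, hD⟩ := dist_bdd T
    have hprop : IsProper H (dirCol n) := by
      intro u v w h1 h2 hvw h3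
      obtain ⟨i, g1, g2⟩ := hH h1
      obtain ⟨j, g3, g4⟩ := hH h2
      rw [dirCol_eq g1 g2, dirCol_eq g3 g4] at h3
      have hij : i = j := Fin.ext h3
      subst hij
      apply hvw
      rw [eq_update g1 g2, eq_update g3 g4]
    obtain ⟨f, hf⟩ := rainbow_copy H (dirCol n) hprop T hT k D hW hD (dir_no_cycle hH D)
      (by rw [card_cube_vertices]; exact h)
    refine ⟨f, hf.2.1, iso_of_dir hH T hT f hf, fun φ hφ => ⟨hf.1, hf.2.1, ?_⟩⟩
    intro a b c d hab hcd he
    exact hf.2.2 a b c d hab hcd (hφ _ (hf.2.1 a b hab) _ (hf.2.1 c d hcd) he)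

end Pool.Agent.Results.MP_233400_co.NoRainbowCycles
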