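import Pool.Agent.V11174.RES.Paths

set_option autoImplicit false

namespace Pool.Agent.Results.MP_233400_co.PathsAsymptotic

open V11174.RES Finset

theorem star_dist (k : ℕ) (x y : Fin (k + 1)) :
    (SimpleGraph.starGraph (0 : Fin (k + 1))).dist x y ≤ 3 := by
  by_cases hxy : x = y
  · subst hxy
    simp
  · by_cases hx : x = 0
    · have h : (SimpleGraph.starGraph (0 : Fin (k + 1))).Adj x y := by
        rw [SimpleGraph.starGraph_adj]
        exact ⟨hxy, Or.inl hx⟩
      have := SimpleGraph.dist_le (SimpleGraph.Walk.cons h .nil)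
      simp at this
      omega
    · by_cases hy : y = 0
      · have h : (SimpleGraph.starGraph (0 : Fin (k + 1))).Adj x y := by
          rw [SimpleGraph.starGraph_adj]
          exact ⟨hxy, Or.inr hy⟩
        have := SimpleGraph.dist_le (SimpleGraph.Walk.cons h .nil)
        simp at this
        omega
      · have h1 : (SimpleGraph.starGraph (0 : Fin (k + 1))).Adj x 0 := by
          rw [SimpleGraph.starGraph_adj]
          exact ⟨hx, Or.inr rfl⟩
        have h2 : (SimpleGraph.starGraph (0 : Fin (k + 1))).Adj 0 y := by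
          rw [SimpleGraph.starGraph_adj]
          exact ⟨fun h => hy h.symm, Or.inl rfl⟩
        have := SimpleGraph.dist_le (SimpleGraph.Walk.cons h1 (.cons h2 .nil))
        simp at this
        omega

theorem star_value (n k : ℕ) (hk : 1 ≤ k) :
    exStar (cube n) (SimpleGraph.starGraph (0 : Fin (k + 1))) =
      min (k - 1) n * 2 ^ (n - 1) := by
  have h : IsGreatest (sizes (cube n) (SimpleGraph.starGraph (0 : Fin (k + 1))))
      (min (k - 1) n * 2 ^ (n - 1)) := by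
    apply greatest_of _ (SimpleGraph.isTree_starGraph _) n k hk (by simp)
    intro H hH φ hφ h
    exact rainbow_copy H φ hφ _ (SimpleGraph.isTree_starGraph _) k 3 (by simp) (star_dist k)
      (no_cycle_three hH φ) (by rw [card_cube_vertices]; exact h)
  rw [exStar, h.csSup_eq]

theorem sizes_bdd {W : Type} (n : ℕ) (F : SimpleGraph W) :
    ∀ m ∈ sizes (cube n) F, 2 * m ≤ n * 2 ^ n := by
  rintro m ⟨H, hH, -, rfl⟩
  exact cube_bound hH

theorem bdd {W : Type} (n : ℕ) (F : SimpleGraph W) : BddAbove (sizes (cube n) F) :=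
  ⟨n * 2 ^ n, fun m hm => by have := sizes_bdd n F m hm; omega⟩

theorem path_lower (n k : ℕ) (hk : 1 ≤ k) :
    min (k - 1) n * 2 ^ (n - 1) ≤ exStar (cube n) (SimpleGraph.pathGraph (k + 1)) := by
  have h2 := dirs_card n (min (k - 1) n) (min_le_right _ _)
  have h3 : (dirs n (min (k - 1) n)).edgeSet.ncard = min (k - 1) n * 2 ^ (n - 1) := by
    rcases Nat.eq_zero_or_pos n with h0 | h0
    · subst h0
      simp at h2 ⊢
      omega
    · obtain ⟨m, rfl⟩ : ∃ m, n = m + 1 := ⟨n - 1, by omega⟩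
      rw [pow_succ, ← mul_assoc] at h2
      rw [Nat.add_sub_cancel]
      omega
  apply le_csSup (bdd n _)
  refine ⟨dirs n (min (k - 1) n), dirs_le _ _, ⟨dirCol n, dirs_proper _ _, ?_⟩, h3⟩
  rintro ⟨f, -, hf2, hf3⟩
  have hadj : ∀ i : Fin k, (SimpleGraph.pathGraph (k + 1)).Adj i.castSucc i.succ := by
    intro i
    rw [SimpleGraph.pathGraph_adj]
    left
    simp
  have hle : (univ : Finset (Fin k)).card ≤ (Finset.range (min (k - 1) n)).card := by
    apply Finset.card_le_card_of_injOn (fun i => dirCol n s(f i.castSucc, f i.succ))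
    · intro i _
      obtain ⟨j, g0, g1, g2⟩ := hf2 _ _ (hadj i)
      show dirCol n s(f i.castSucc, f i.succ) ∈ (Finset.range (min (k - 1) n) : Set ℕ)
      rw [dirCol_eq g1 g2]
      simpa using g0
    · intro i _ j _ hij
      have h4 := hf3 _ _ _ _ (hadj i) (hadj j) hij
      rw [Sym2.eq_iff] at h4
      rcases h4 with ⟨h5, -⟩ | ⟨h5, h6⟩
      · exact Fin.castSucc_injective _ h5
      · have h7 := congrArg Fin.val h5
        have h8 := congrArg Fin.val h6
        simp at h7 h8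
        omega
  rw [Finset.card_univ, Fintype.card_fin, Finset.card_range] at hle
  omega

theorem path_upper (n k s : ℕ) (hk : 1 ≤ k) (hs : 3 ≤ s) (hks : k ≤ s ^ 4) :
    2 * exStar (cube n) (SimpleGraph.pathGraph (k + 1)) ≤ (k - 1 + 7 * s ^ 3) * 2 ^ n := by
  have h1 : ∀ m ∈ sizes (cube n) (SimpleGraph.pathGraph (k + 1)),
      m ≤ ((k - 1 + 7 * s ^ 3) * 2 ^ n) / 2 := by
    rintro m ⟨H, hH, ⟨φ, hφ, hno⟩, rfl⟩
    have := paths_bound hH hφ k s hk hs hks hno
    omega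
  have h2 : exStar (cube n) (SimpleGraph.pathGraph (k + 1)) ≤
      ((k - 1 + 7 * s ^ 3) * 2 ^ n) / 2 := by
    rcases Set.eq_empty_or_nonempty (sizes (cube n) (SimpleGraph.pathGraph (k + 1))) with h0 | h0
    · rw [exStar, h0]
      simp
    · exact csSup_le h0 h1
  omega

theorem path_trivial (n k : ℕ) :
    2 * exStar (cube n) (SimpleGraph.pathGraph (k + 1)) ≤ n * 2 ^ n := by
  have h2 : exStar (cube n) (SimpleGraph.pathGraph (k + 1)) ≤ (n * 2 ^ n) / 2 := by
    rcases Set.eq_empty_or_nonempty (sizes (cube n) (SimpleGraph.pathGraph (k + 1))) with h0 | h0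
    · rw [exStar, h0]
      simp
    · apply csSup_le h0
      intro m hm
      have := sizes_bdd n _ m hm
      omega
  omega

/-- Paths: `ex*(Q_n, P_k)` is asymptotically `ex*(Q_n, K_{1,k})`. -/
theorem result :
    (∀ n k s : ℕ, 1 ≤ k → 3 ≤ s → k ≤ s ^ 4 →
      2 * exStar (cube n) (SimpleGraph.pathGraph (k + 1)) ≤ (k - 1 + 7 * s ^ 3) * 2 ^ n) ∧
    (∀ n k : ℕ, 1 ≤ k →
      exStar (cube n) (SimpleGraph.starGraph (0 : Fin (k + 1))) = min (k - 1) n * 2 ^ (n - 1) ∧
      exStar (cube n) (SimpleGraph.starGraph (0 : Fin (k + 1))) ≤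
        exStar (cube n) (SimpleGraph.pathGraph (k + 1))) ∧
    (∀ ε : ℝ, 0 < ε → ∃ K : ℕ, ∀ k : ℕ, K ≤ k → ∀ n : ℕ,
      (exStar (cube n) (SimpleGraph.pathGraph (k + 1)) : ℝ) ≤
        (1 + ε) * exStar (cube n) (SimpleGraph.starGraph (0 : Fin (k + 1)))) := by
  refine ⟨fun n k s hk hs hks => path_upper n k s hk hs hks,
    fun n k hk => ⟨star_value n k hk, by rw [star_value n k hk]; exact path_lower n k hk⟩, ?_⟩
  intro ε hε
  obtain ⟨C, hC⟩ := exists_nat_ge (56 / ε)
  refine ⟨(C + 3) ^ 4 + 1, ?_⟩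
  intro k hk n
  have hk1 : 1 ≤ k := by omega
  rw [star_value n k hk1]
  rcases le_or_gt n (k - 1) with hn | hn
  · rw [min_eq_right hn]
    have h1 := path_trivial n k
    have h2 : exStar (cube n) (SimpleGraph.pathGraph (k + 1)) ≤ n * 2 ^ (n - 1) := by
      rcases Nat.eq_zero_or_pos n with h0 | h0
      · subst h0
        simp at h1 ⊢
        exact h1
      · obtain ⟨m, rfl⟩ : ∃ m, n = m + 1 := ⟨n - 1, by omega⟩
        rw [pow_succ, ← mul_assoc] at h1
        rw [Nat.add_sub_cancel]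
        omega
    have h3 : (exStar (cube n) (SimpleGraph.pathGraph (k + 1)) : ℝ) ≤
        ((n * 2 ^ (n - 1) : ℕ) : ℝ) := by exact_mod_cast h2
    have h4 : (0 : ℝ) ≤ ((n * 2 ^ (n - 1) : ℕ) : ℝ) := Nat.cast_nonneg _
    nlinarith
  · rw [min_eq_left hn.le]
    have hex : ∃ s : ℕ, k ≤ s ^ 4 := ⟨k, by
      calc k = k ^ 1 := (pow_one k).symm
        _ ≤ k ^ 4 := Nat.pow_le_pow_right hk1 (by norm_num)⟩
    classical
    obtain ⟨s, hs1, hmin⟩ : ∃ s, k ≤ s ^ 4 ∧ ∀ m, m < s → ¬ k ≤ m ^ 4 :=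
      ⟨Nat.find hex, Nat.find_spec hex, fun m hm => Nat.find_min hex hm⟩
    have hsC : C + 3 < s := by
      by_contra hcon
      push Not at hcon
      have := Nat.pow_le_pow_left hcon 4
      omega
    have hs2 : (s - 1) ^ 4 < k := by
      have := hmin (s - 1) (by omega)
      omega
    obtain ⟨t, rfl⟩ : ∃ t, s = t + 1 := ⟨s - 1, by omega⟩
    rw [Nat.add_sub_cancel] at hs2
    have h1 := path_upper n k (t + 1) hk1 (by omega) hs1
    obtain ⟨m, rfl⟩ : ∃ m, n = m + 1 := ⟨n - 1, by omega⟩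
    rw [Nat.add_sub_cancel]
    have h2 : exStar (cube (m + 1)) (SimpleGraph.pathGraph (k + 1)) ≤
        (k - 1 + 7 * (t + 1) ^ 3) * 2 ^ m := by
      have e : (2 : ℕ) ^ (m + 1) = 2 ^ m * 2 := pow_succ 2 m
      rw [e, ← mul_assoc] at h1
      omega
    have h3 : (exStar (cube (m + 1)) (SimpleGraph.pathGraph (k + 1)) : ℝ) ≤
        (((k - 1 : ℕ) : ℝ) + 7 * ((t : ℝ) + 1) ^ 3) * 2 ^ m := by exact_mod_cast h2
    have h4 : 7 * ((t : ℝ) + 1) ^ 3 ≤ ε * ((k - 1 : ℕ) : ℝ) := by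
      have ht : (C : ℝ) + 3 ≤ t := by
        have : C + 3 ≤ t := by omega
        exact_mod_cast this
      have hC0 : (0 : ℝ) ≤ C := Nat.cast_nonneg _
      have ht1 : (1 : ℝ) ≤ t := by linarith
      have hkt : (t : ℝ) ^ 4 ≤ ((k - 1 : ℕ) : ℝ) := by
        have : t ^ 4 ≤ k - 1 := by omega
        exact_mod_cast this
      have hεt : 56 ≤ ε * t := by
        have h5 : 56 / ε ≤ t := by linarith
        rw [div_le_iff₀ hε] at h5
        linarith
      have h6 : 7 * ((t : ℝ) + 1) ^ 3 ≤ 56 * (t : ℝ) ^ 3 := by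
        have h7 : (t : ℝ) + 1 ≤ 2 * t := by linarith
        have h8 : ((t : ℝ) + 1) ^ 3 ≤ (2 * t) ^ 3 := by gcongr
        have h9 : (2 * (t : ℝ)) ^ 3 = 8 * (t : ℝ) ^ 3 := by ring
        linarith
      have h10 : 56 * (t : ℝ) ^ 3 ≤ ε * t * (t : ℝ) ^ 3 := by
        gcongr
      have h11 : ε * t * (t : ℝ) ^ 3 = ε * (t : ℝ) ^ 4 := by ring
      have h12 : ε * (t : ℝ) ^ 4 ≤ ε * ((k - 1 : ℕ) : ℝ) := by
        gcongr
      linarith
    have h5 : (0 : ℝ) < 2 ^ m := by positivity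
    push_cast
    calc (exStar (cube (m + 1)) (SimpleGraph.pathGraph (k + 1)) : ℝ) ≤
        (((k - 1 : ℕ) : ℝ) + 7 * ((t : ℝ) + 1) ^ 3) * 2 ^ m := h3
      _ ≤ (((k - 1 : ℕ) : ℝ) + ε * ((k - 1 : ℕ) : ℝ)) * 2 ^ m := by gcongr
      _ = (1 + ε) * (((k - 1 : ℕ) : ℝ) * 2 ^ m) := by ring

end Pool.Agent.Results.MP_233400_co.PathsAsymptotic
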